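import Pool.Agent.H.MP_8e29f8_al.B

namespace Pool.Agent.Results.MP_8e29f8_al.Counter

open Pool.Agent.H.MP_8e29f8_al

theorem result : ∃ (G : Type) (_ : Group G) (_ : Finite G) (A B : Subgroup G),
    A.Normal ∧ B.Normal ∧ A ≠ ⊤ ∧ B ≠ ⊤ ∧ (∀ g : G, ∃ a ∈ A, ∃ b ∈ B, g = a * b) ∧
    ¬ ∀ p q : ℕ, Edge G p q ↔ (Edge A p q ∨ Edge B p q) := by
  obtain ⟨h1, h2, h3, h4, h5, h6, h7⟩ := main
  exact ⟨GG, inferInstance, inferInstance, AA, co.ker, h1, h2, h3, h4, h5,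
    fun h => h7 ((h 7 2).2 (Or.inl h6))⟩

end Pool.Agent.Results.MP_8e29f8_al.Counter
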